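import Pool.Agent.Helper44.GF.Defs

open Finset MeasureTheory Filter Topology
open scoped ENNReal ContDiff

namespace Pool.Agent.Helper44.GF

/-- `exp (-c ‖t‖)` is integrable -/
lemma lim_int {m : ℕ} {c : ℝ} (hc : 0 < c) :
    Integrable (fun t : Fin m → ℝ => Real.exp (-(c * ‖t‖))) := by
  have h1 : Integrable (fun t : Fin m → ℝ => (1 + ‖t‖) ^ (-((m : ℝ) + 1))) := by
    apply integrable_one_add_norm
    simp
  have h2 : Integrable (fun t : Fin m → ℝ =>
      (Real.exp c * ((m + 1).factorial / c ^ (m + 1))) * (1 + ‖t‖) ^ (-((m : ℝ) + 1))) :=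
    h1.const_mul _
  refine h2.mono' ?_ ?_
  · exact (by fun_prop : Continuous fun t : Fin m → ℝ => Real.exp (-(c * ‖t‖))).aestronglyMeasurable
  · refine Filter.Eventually.of_forall fun t => ?_
    rw [Real.norm_eq_abs, abs_of_pos (Real.exp_pos _)]
    have ht : 0 < 1 + ‖t‖ := by positivity
    have h3 := Real.pow_div_factorial_le_exp (c * (1 + ‖t‖)) (by positivity) (m + 1)
    have h4 : Real.exp (-(c * ‖t‖)) = Real.exp c * (Real.exp (c * (1 + ‖t‖)))⁻¹ := by
      rw [← Real.exp_neg, ← Real.exp_add]; congr 1; ring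
    have h5 : (1 + ‖t‖) ^ (-((m : ℝ) + 1)) = ((1 + ‖t‖) ^ (m + 1))⁻¹ := by
      rw [Real.rpow_neg ht.le]
      congr 1
      have : ((m : ℝ) + 1) = ((m + 1 : ℕ) : ℝ) := by push_cast; ring
      rw [this, Real.rpow_natCast]
    rw [h4, h5, mul_assoc]
    apply mul_le_mul_of_nonneg_left _ (Real.exp_pos _).le
    have h6 : 0 < (c * (1 + ‖t‖)) ^ (m + 1) / ((m + 1).factorial : ℝ) := by positivity
    have h7 := inv_anti₀ h6 h3
    refine h7.trans (le_of_eq ?_)
    rw [mul_pow]
    field_simp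

lemma lim_low {n m : ℕ} {W : Matrix (Fin n) (Fin m) ℝ} (hW : Function.Injective W.mulVec) :
    ∃ K : ℝ, 0 < K ∧ ∀ t : Fin m → ℝ, K * ‖t‖ ≤ ∑ i, |W.mulVec t i| := by
  have hinj : LinearMap.ker (Matrix.mulVecLin W) = ⊥ := by
    rw [LinearMap.ker_eq_bot]
    intro x y hxy
    exact hW hxy
  obtain ⟨K, hK, hL⟩ := LinearMap.exists_antilipschitzWith (Matrix.mulVecLin W) hinj
  have hK0 : (0 : ℝ) < K := by exact_mod_cast hK
  refine ⟨(K : ℝ)⁻¹, by positivity, fun t => ?_⟩
  have h1 := hL.le_mul_dist t 0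
  rw [dist_zero_right, map_zero, dist_zero_right] at h1
  have h2 : ‖Matrix.mulVecLin W t‖ ≤ ∑ i, |W.mulVec t i| := by
    rw [pi_norm_le_iff_of_nonneg (Finset.sum_nonneg fun i _ => abs_nonneg _)]
    intro i
    have := Finset.single_le_sum (f := fun i => |W.mulVec t i|) (fun j _ => abs_nonneg _)
      (Finset.mem_univ i)
    simpa using this
  rw [inv_mul_le_iff₀ hK0]
  exact h1.trans (mul_le_mul_of_nonneg_left h2 hK0.le)

lemma lim_MM {n m : ℕ} {Λk : ℕ → ℝ → ℝ} {Λ : ℝ → ℝ} {a b : ℝ} (ha : 0 < a)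
    (hc : ∀ k, ContinuousOn (Λk k) (Set.Ici 0))
    (hb : ∀ k u, 0 ≤ u → a * Real.sqrt u - b ≤ Λk k u)
    (hl : ∀ u, 0 ≤ u → Tendsto (fun k => Λk k u) atTop (𝓝 (Λ u)))
    (W : Matrix (Fin n) (Fin m) ℝ) (hW : Function.Injective W.mulVec) :
    Tendsto (fun k => MM (Λk k) W) atTop (𝓝 (MM Λ W)) := by
  obtain ⟨K, hK, hlow⟩ := lim_low hW
  unfold MM
  refine tendsto_integral_of_dominated_convergence
    (fun t => Real.exp (n * b) * Real.exp (-(a * K * ‖t‖))) ?_ ?_ ?_ ?_
  · intro k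
    apply Continuous.aestronglyMeasurable
    refine Real.continuous_exp.comp (Continuous.neg ?_)
    refine continuous_finset_sum _ fun i _ => ?_
    refine (hc k).comp_continuous ?_ fun t => Set.mem_Ici.2 (sq_nonneg _)
    have : Continuous fun t : Fin m → ℝ => W.mulVec t i := by
      unfold Matrix.mulVec dotProduct
      fun_prop
    exact this.pow 2
  · exact (lim_int (by positivity)).const_mul _
  · intro k
    refine Filter.Eventually.of_forall fun t => ?_
    rw [Real.norm_eq_abs, abs_of_pos (Real.exp_pos _), ← Real.exp_add]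
    apply Real.exp_le_exp.2
    have h1 : ∑ i, (a * |W.mulVec t i| - b) ≤ ∑ i, Λk k ((W.mulVec t i) ^ 2) := by
      refine Finset.sum_le_sum fun i _ => ?_
      have := hb k ((W.mulVec t i) ^ 2) (sq_nonneg _)
      rwa [Real.sqrt_sq_eq_abs] at this
    rw [Finset.sum_sub_distrib, ← Finset.mul_sum, Finset.sum_const, Finset.card_univ,
      Fintype.card_fin, nsmul_eq_mul] at h1
    have h2 := mul_le_mul_of_nonneg_left (hlow t) ha.le
    nlinarith
  · refine Filter.Eventually.of_forall fun t => ?_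
    refine (Real.continuous_exp.tendsto _).comp (Tendsto.neg ?_)
    exact tendsto_finsetSum _ fun i _ => hl _ (sq_nonneg _)

theorem st_LIM : ST_LIM := by
  intro n m Λk Λ a b ha hc hb hl hPP V hV
  choose c hc0 hc1 hcd hcW using fun k => hPP k V hV
  have hmem : ∀ k, c k ∈ stdSimplex ℝ (Fin m → Fin n) := fun k => ⟨hc0 k, hc1 k⟩
  obtain ⟨c', hc', φ, hφ, hlim⟩ := (isCompact_stdSimplex ℝ (Fin m → Fin n)).tendsto_subseq hmem
  have hcoord : ∀ f, Tendsto (fun k => c (φ k) f) atTop (𝓝 (c' f)) := fun f =>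
    (tendsto_pi_nhds.1 hlim) f
  refine ⟨c', hc'.1, hc'.2, ?_, ?_⟩
  · intro f hf
    have h1 : Tendsto (fun k => c (φ k) f) atTop (𝓝 0) := by
      have : (fun k => c (φ k) f) = fun _ => 0 := funext fun k => hcd (φ k) f hf
      rw [this]
      exact tendsto_const_nhds
    exact tendsto_nhds_unique (hcoord f) h1
  · intro W hW
    have hMV := (lim_MM ha hc hb hl V hV).comp hφ.tendsto_atTop
    have hMW := (lim_MM ha hc hb hl W hW).comp hφ.tendsto_atTop
    have hs : Tendsto (fun k => ∑ f, c (φ k) f * |(W.submatrix f id).det / (V.submatrix f id).det|)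
        atTop (𝓝 (∑ f, c' f * |(W.submatrix f id).det / (V.submatrix f id).det|)) :=
      tendsto_finsetSum _ fun f _ => (hcoord f).mul_const _
    exact le_of_tendsto_of_tendsto' (hs.mul hMW) hMV fun k => hcW (φ k) W hW

end Pool.Agent.Helper44.GF
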