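import Pool.Agent.Helper44.GF.Defs

open Finset MeasureTheory Filter Topology
open scoped ENNReal ContDiff

namespace Pool.Agent.Helper44.GF

lemma gh1_abel (a e : ℕ → ℝ) (q : ℝ) (ha : ∀ k, a (k + 1) = q * a k) (n : ℕ) :
    ∑ k ∈ range n, a k * (e k - e (k + 1)) =
      a 0 * e 0 + (q - 1) * ∑ k ∈ range n, a k * e (k + 1) - a n * e n := by
  induction n with
  | zero => simp
  | succ n ih =>
    rw [Finset.sum_range_succ, Finset.sum_range_succ, ih, ha n]
    ring

theorem st_GH1 : ST_GH1 := by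
  intro ρ ε c N M hρ hε hε1 hc hM t ht
  have hρ0 : 0 < ρ := by linarith
  have hM0 : (M : ℝ) ≠ 0 := by
    have : M ≠ 0 := by omega
    exact_mod_cast this
  -- the sequences
  set a : ℕ → ℝ := fun k => ρ ^ (ε * ((k : ℝ) - N)) with ha
  set R : ℕ → ℝ := fun k => ρ ^ ((k : ℝ) - 1 - N) with hR
  set e : ℕ → ℝ := fun k => Real.exp (-(t * R k)) with he
  have hapos : ∀ k, 0 < a k := fun k => Real.rpow_pos_of_pos hρ0 _
  have hRpos : ∀ k, 0 < R k := fun k => Real.rpow_pos_of_pos hρ0 _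
  have hepos : ∀ k, 0 < e k := fun k => Real.exp_pos _
  have haq : ∀ k, a (k + 1) = ρ ^ ε * a k := by
    intro k
    simp only [ha]
    rw [← Real.rpow_add hρ0]
    congr 1
    push_cast
    ring
  have hRq : ∀ k, R (k + 1) = ρ * R k := by
    intro k
    simp only [hR]
    nth_rewrite 2 [← Real.rpow_one ρ]
    rw [← Real.rpow_add hρ0]
    congr 1
    push_cast
    ring
  have hgr : ∀ y : Fin (2 * N + 1) × Fin M, gr ρ N M y = R ((y.1 : ℕ) + 1) := by
    intro y
    simp only [gr, hR]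
    rw [← Real.rpow_intCast]
    congr 1
    push_cast
    ring
  have hgz : ∀ y : Fin (2 * N + 1) × Fin M, gz ρ ε c N M y * gr ρ N M y =
      c * a (y.1 : ℕ) / M := by
    intro y
    rw [hgr]
    simp only [gz, hR, ha]
    have h1 : ρ ^ (ε * (((y.1 : ℕ) : ℝ) - N)) = ρ ^ (-((1 - ε) * (((y.1 : ℕ) : ℝ) - N))) *
        ρ ^ ((((y.1 : ℕ) + 1 : ℕ) : ℝ) - 1 - N) := by
      rw [← Real.rpow_add hρ0]
      congr 1
      push_cast
      ring
    rw [h1]
    ring
  have hsum : ∀ F : ℕ → ℝ, ∑ y : Fin (2 * N + 1) × Fin M, c * a (y.1 : ℕ) / M * F (y.1 : ℕ) =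
      c * ∑ k ∈ range (2 * N + 1), a k * F k := by
    intro F
    rw [Fintype.sum_prod_type]
    simp only [Finset.sum_const, Finset.card_univ, Fintype.card_fin, nsmul_eq_mul]
    rw [Finset.mul_sum, ← Fin.sum_univ_eq_sum_range (fun k => c * (a k * F k))]
    refine Finset.sum_congr rfl fun k _ => ?_
    field_simp
  have hS1 : ∑ y : Fin (2 * N + 1) × Fin M, gz ρ ε c N M y * gr ρ N M y ^ 2 *
      Real.exp (-(t * gr ρ N M y)) = c * ∑ k ∈ range (2 * N + 1), a k * (R (k + 1) * e (k + 1)) := by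
    rw [← hsum (fun k => R (k + 1) * e (k + 1))]
    refine Finset.sum_congr rfl fun y _ => ?_
    rw [← hgz y, hgr y]
    simp only [he]
    ring
  have hS2 : m1 (gd ρ ε c N) (gr ρ N M) (gz ρ ε c N M) t =
      c * (a 0 / (ρ ^ ε - 1) + ∑ k ∈ range (2 * N + 1), a k * e (k + 1)) := by
    unfold m1
    have h1 : ∑ y : Fin (2 * N + 1) × Fin M, gz ρ ε c N M y * gr ρ N M y *
      Real.exp (-(t * gr ρ N M y)) = c * ∑ k ∈ range (2 * N + 1), a k * e (k + 1) := by
      rw [← hsum (fun k => e (k + 1))]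
      refine Finset.sum_congr rfl fun y _ => ?_
      rw [hgz y, hgr y]
    rw [h1]
    have h2 : gd ρ ε c N = c * (a 0 / (ρ ^ ε - 1)) := by
      simp only [gd, ha]
      have : ε * (((0 : ℕ) : ℝ) - N) = -(ε * (N : ℝ)) := by push_cast; ring
      rw [this]
      ring
    rw [h2]
    ring
  rw [hS1, hS2]
  -- (i)
  have hρ1 : 0 < ρ - 1 := by linarith
  have hi : ∀ k, t * (R (k + 1) * e (k + 1)) ≤ ρ / (ρ - 1) * (e k - e (k + 1)) := by
    intro k
    have h1 : e k = e (k + 1) * Real.exp (t * R (k + 1) * (1 - 1 / ρ)) := by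
      simp only [he]
      rw [← Real.exp_add]
      congr 1
      rw [hRq k]
      field_simp
      ring
    have h2 := Real.add_one_le_exp (t * R (k + 1) * (1 - 1 / ρ))
    have h3 : e (k + 1) * (t * R (k + 1) * (1 - 1 / ρ)) ≤ e k - e (k + 1) := by
      rw [h1]
      have := hepos (k + 1)
      nlinarith
    have h4 : ρ / (ρ - 1) * (e (k + 1) * (t * R (k + 1) * (1 - 1 / ρ))) =
        t * (R (k + 1) * e (k + 1)) := by
      field_simp
    rw [← h4]
    exact mul_le_mul_of_nonneg_left h3 (by positivity)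
  have hq1 : 0 < ρ ^ ε - 1 := by
    have := Real.one_lt_rpow hρ hε
    linarith
  have hq2 : ρ ^ ε - 1 ≤ ε * (ρ - 1) := by
    have := rpow_one_add_le_one_add_mul_self (s := ρ - 1) (by linarith) hε.le hε1.le
    have h2 : (1 : ℝ) + (ρ - 1) = ρ := by ring
    rw [h2] at this
    linarith
  set T : ℝ := ∑ k ∈ range (2 * N + 1), a k * e (k + 1) with hT
  have hTnn : 0 ≤ T := Finset.sum_nonneg fun k _ => (mul_pos (hapos _) (hepos _)).le
  have hab := gh1_abel a e (ρ ^ ε) haq (2 * N + 1)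
  have he0 : e 0 ≤ 1 := by
    simp only [he]
    apply Real.exp_le_one_iff.2
    have := hRpos 0
    nlinarith
  have hS : t * ∑ k ∈ range (2 * N + 1), a k * (R (k + 1) * e (k + 1)) ≤
      ρ / (ρ - 1) * (a 0 + (ρ ^ ε - 1) * T) := by
    calc t * ∑ k ∈ range (2 * N + 1), a k * (R (k + 1) * e (k + 1))
        = ∑ k ∈ range (2 * N + 1), a k * (t * (R (k + 1) * e (k + 1))) := by
          rw [Finset.mul_sum]
          refine Finset.sum_congr rfl fun k _ => ?_
          ring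
      _ ≤ ∑ k ∈ range (2 * N + 1), a k * (ρ / (ρ - 1) * (e k - e (k + 1))) :=
          Finset.sum_le_sum fun k _ => mul_le_mul_of_nonneg_left (hi k) (hapos k).le
      _ = ρ / (ρ - 1) * ∑ k ∈ range (2 * N + 1), a k * (e k - e (k + 1)) := by
          rw [Finset.mul_sum]
          refine Finset.sum_congr rfl fun k _ => ?_
          ring
      _ ≤ ρ / (ρ - 1) * (a 0 + (ρ ^ ε - 1) * T) := by
          apply mul_le_mul_of_nonneg_left _ (by positivity)
          rw [hab]
          have h1 := mul_le_mul_of_nonneg_left he0 (hapos 0).le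
          have h2 := mul_pos (hapos (2 * N + 1)) (hepos (2 * N + 1))
          linarith
  have hfin : ρ / (ρ - 1) * (a 0 + (ρ ^ ε - 1) * T) ≤ ρ * ε * (a 0 / (ρ ^ ε - 1) + T) := by
    have h1 : ρ / (ρ - 1) * (a 0 + (ρ ^ ε - 1) * T) =
        (ρ / (ρ - 1) * (ρ ^ ε - 1)) * (a 0 / (ρ ^ ε - 1) + T) := by
      field_simp
    rw [h1]
    have h2 : ρ / (ρ - 1) * (ρ ^ ε - 1) ≤ ρ * ε := by
      rw [div_mul_eq_mul_div, div_le_iff₀ hρ1]
      nlinarith
    apply mul_le_mul_of_nonneg_right h2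
    have := hapos 0
    positivity
  calc t * (c * ∑ k ∈ range (2 * N + 1), a k * (R (k + 1) * e (k + 1)))
      = c * (t * ∑ k ∈ range (2 * N + 1), a k * (R (k + 1) * e (k + 1))) := by ring
    _ ≤ c * (ρ * ε * (a 0 / (ρ ^ ε - 1) + T)) := mul_le_mul_of_nonneg_left (hS.trans hfin) hc.le
    _ = ρ * ε * (c * (a 0 / (ρ ^ ε - 1) + T)) := by ring

end Pool.Agent.Helper44.GF
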